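import Pool.Agent.Q221.WGSC.Red

/-! # MP_873b83_al, Q1: answered yes.

Every `2 × 2` integer matrix with irrational eigenvalues whose spectrum satisfies the Perron
condition (P) is shift equivalent over the integers to a primitive integer matrix. -/

namespace Pool.Agent.Results.MP_873b83_al.TwoByTwoPrimitive

open Matrix

/-- The spectrum of an integer matrix, as a multiset of complex numbers. -/
noncomputable def spec (A : Matrix (Fin 2) (Fin 2) ℤ) : Multiset ℂ :=
  (A.map (fun x : ℤ => (x : ℂ))).charpoly.roots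

/-- All eigenvalues are irrational. -/
def IrrationalSpec (A : Matrix (Fin 2) (Fin 2) ℤ) : Prop :=
  ∀ z ∈ spec A, ∀ q : ℚ, z ≠ (q : ℂ)

/-- Condition (P): a positive real entry, occurring once, strictly larger than the modulus of
every other entry. -/
def CondP (Λ : Multiset ℂ) : Prop :=
  ∃ x : ℝ, 0 < x ∧ Λ.count (x : ℂ) = 1 ∧ ∀ z ∈ Λ, z ≠ (x : ℂ) → ‖z‖ < x

/-- Shift equivalence over the integers of square integer matrices. -/
def ShiftEquivalent {m n : ℕ} (A : Matrix (Fin m) (Fin m) ℤ) (B : Matrix (Fin n) (Fin n) ℤ) :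
    Prop :=
  ∃ (R : Matrix (Fin m) (Fin n) ℤ) (S : Matrix (Fin n) (Fin m) ℤ) (l : ℕ),
    1 ≤ l ∧ A * R = R * B ∧ S * A = B * S ∧ R * S = A ^ l ∧ S * R = B ^ l

/-- Primitive integer matrix: nonnegative entries and some positive power has only positive
entries. -/
def Primitive {n : ℕ} (B : Matrix (Fin n) (Fin n) ℤ) : Prop :=
  (∀ i j, 0 ≤ B i j) ∧ ∃ k : ℕ, 1 ≤ k ∧ ∀ i j, 0 < (B ^ k) i j

theorem result (A : Matrix (Fin 2) (Fin 2) ℤ) (hirr : IrrationalSpec A) (hP : CondP (spec A)) :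
    ∃ (n : ℕ) (B : Matrix (Fin n) (Fin n) ℤ), 0 < n ∧ Primitive B ∧ ShiftEquivalent A B := by
  obtain ⟨x, hx0, hx1, hx2⟩ := hP
  have hxm : (x : ℂ) ∈ spec A := by
    rw [← Multiset.one_le_count_iff_mem, hx1]
  have hcard : (spec A).card = 2 := by
    unfold spec
    rw [IsAlgClosed.card_roots_eq_natDegree, Matrix.charpoly_natDegree_eq_dim]
    simp
  obtain ⟨t, ht⟩ := Multiset.exists_cons_of_mem hxm
  have ht1 : t.card = 1 := by
    have := congrArg Multiset.card ht
    rw [Multiset.card_cons, hcard] at this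
    omega
  obtain ⟨y, rfl⟩ := Multiset.card_eq_one.1 ht1
  have hym : y ∈ spec A := by rw [ht]; simp
  have hyx : y ≠ (x : ℂ) := by
    rintro rfl
    rw [ht] at hx1
    simp at hx1
  have hyn := hx2 y hym hyx
  have htr : ((A 0 0 + A 1 1 : ℤ) : ℂ) = x + y := by
    have h := Matrix.trace_eq_sum_roots_charpoly (A.map (fun x : ℤ => (x : ℂ)))
    change _ = (spec A).sum at h
    rw [ht, Matrix.trace_fin_two] at h
    simp only [Matrix.map_apply, Multiset.sum_cons, Multiset.sum_singleton] at h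
    push_cast
    exact h
  have hdet : ((A 0 0 * A 1 1 - A 0 1 * A 1 0 : ℤ) : ℂ) = x * y := by
    have h := Matrix.det_eq_prod_roots_charpoly (A.map (fun x : ℤ => (x : ℂ)))
    change _ = (spec A).prod at h
    rw [ht, Matrix.det_fin_two] at h
    simp only [Matrix.map_apply, Multiset.prod_cons, Multiset.prod_singleton] at h
    push_cast
    exact h
  set a := A 0 0 with ha
  set b := A 0 1 with hb
  set c := A 1 0 with hc
  set d := A 1 1 with hd
  have hA : A = !![a, b; c, d] := Matrix.eta_fin_two A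
  obtain ⟨y', hy'⟩ : ∃ y' : ℝ, y = (y' : ℂ) := by
    refine ⟨((a + d : ℤ) : ℝ) - x, ?_⟩
    have : y = ((a + d : ℤ) : ℂ) - x := by rw [htr]; ring
    rw [this]
    push_cast
    rfl
  subst hy'
  have htr' : ((a + d : ℤ) : ℝ) = x + y' := by exact_mod_cast htr
  have hdet' : ((a * d - b * c : ℤ) : ℝ) = x * y' := by exact_mod_cast hdet
  have hyn' : |y'| < x := by
    have h := hyn
    rw [Complex.norm_real, Real.norm_eq_abs] at h
    exact h
  have hxy : x ≠ y' := by
    intro h
    apply hyx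
    rw [h]
  have ht : 1 ≤ a + d := by
    have h1 : (0 : ℝ) < ((a + d : ℤ) : ℝ) := by
      rw [htr']
      linarith [(abs_lt.1 hyn').1]
    have h2 : 0 < a + d := by exact_mod_cast h1
    linarith
  have hD : 0 < (d - a) ^ 2 + 4 * (b * c) := by
    have h1 : (((d - a) ^ 2 + 4 * (b * c) : ℤ) : ℝ) = (x - y') ^ 2 := by
      have h2 : (((d - a) ^ 2 + 4 * (b * c) : ℤ) : ℝ) =
          ((a + d : ℤ) : ℝ) ^ 2 - 4 * ((a * d - b * c : ℤ) : ℝ) := by
        push_cast
        ring
      rw [h2, htr', hdet']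
      ring
    have h3 : (0 : ℝ) < (((d - a) ^ 2 + 4 * (b * c) : ℤ) : ℝ) := by
      rw [h1]
      have : x - y' ≠ 0 := sub_ne_zero.2 hxy
      positivity
    exact_mod_cast h3
  have hk : ∀ k : ℤ, k ^ 2 - (a + d) * k + (a * d - b * c) ≠ 0 := by
    intro k hk0
    have h1 : ((k : ℝ) - x) * (k - y') = 0 := by
      have h2 : ((k ^ 2 - (a + d) * k + (a * d - b * c) : ℤ) : ℝ) = 0 := by
        rw [hk0]; simp
      have h3 : ((k ^ 2 - (a + d) * k + (a * d - b * c) : ℤ) : ℝ) =
          (k : ℝ) ^ 2 - ((a + d : ℤ) : ℝ) * k + ((a * d - b * c : ℤ) : ℝ) := by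
        push_cast
        ring
      rw [h3, htr', hdet'] at h2
      linear_combination h2
    rcases mul_eq_zero.1 h1 with h | h
    · apply hirr (x : ℂ) hxm (k : ℚ)
      have : x = (k : ℝ) := by linarith
      rw [this]
      push_cast
      rfl
    · apply hirr (y' : ℂ) hym (k : ℚ)
      have : y' = (k : ℝ) := by linarith
      rw [this]
      push_cast
      rfl
  obtain ⟨n, B, hn, hB, hSE⟩ := Pool.Agent.Q221.WGSC.good_main _ a b c d rfl ht hD hk
  rw [← hA] at hSE
  obtain ⟨k, hk1, hk2⟩ := hB.exists_pos_pow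
  exact ⟨n, B, hn, ⟨hB.nonneg, k, hk1, hk2⟩, hSE⟩

end Pool.Agent.Results.MP_873b83_al.TwoByTwoPrimitive
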